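import Mathlib

set_option autoImplicit false

/-!
The MRDP theorem over Mathlib's `Dioph`: binomial coefficients and factorials are Diophantine,
Diophantine sets are closed under bounded universal quantifiers, primitive recursive functions
are Diophantine, recursively enumerable sets are Diophantine.
-/

namespace Pool.Agent.Shared.H68

open Dioph Finset

/-! ### arithmetic -/

lemma digit_sum (u : ℕ) : ∀ (k : ℕ) (c : ℕ → ℕ) (m : ℕ), k < m → (∀ i, c i < u) →
    (∑ i ∈ range m, c i * u ^ i) / u ^ k % u = c k := by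
  intro k
  induction k with
  | zero =>
    intro c m hm hc
    obtain ⟨m, rfl⟩ : ∃ j, m = j + 1 := ⟨m - 1, by omega⟩
    rw [sum_range_succ']
    simp only [pow_succ, ← mul_assoc, ← sum_mul, pow_zero, mul_one, Nat.div_one]
    rw [Nat.mul_add_mod_of_lt (hc 0)]
  | succ k ih =>
    intro c m hm hc
    obtain ⟨m, rfl⟩ : ∃ j, m = j + 1 := ⟨m - 1, by omega⟩
    have hu : 0 < u := lt_of_le_of_lt (Nat.zero_le _) (hc 0)
    rw [sum_range_succ']
    simp only [pow_succ, ← mul_assoc, ← sum_mul, pow_zero, mul_one]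
    rw [mul_comm (u ^ k) u, ← Nat.div_div_eq_div_mul, add_comm, Nat.add_mul_div_right _ _ hu,
      Nat.div_eq_of_lt (hc 0), zero_add]
    exact ih (fun i => c (i + 1)) m (by omega) fun i => hc _

lemma choose_eq (n k : ℕ) :
    n.choose k = (2 ^ n + 1 + 1) ^ n / (2 ^ n + 1) ^ k % (2 ^ n + 1) := by
  have h := digit_sum (2 ^ n + 1) k (fun i => n.choose i) (n + k + 1) (by omega)
    fun i => Nat.lt_succ_of_le (Nat.choose_le_two_pow n i)
  rw [← h, add_pow (2 ^ n + 1) 1 n]
  congr 2
  rw [← sum_subset (range_subset_range.2 (by omega : n + 1 ≤ n + k + 1))]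
  · exact sum_congr rfl fun i _ => by simp [mul_comm]
  · intro i _ hi
    rw [Nat.choose_eq_zero_of_lt (by simpa using hi), zero_mul]

lemma desc_ge (r : ℕ) : ∀ n, n ≤ r → r ^ (n + 1) ≤ r * r.descFactorial n + n ^ 2 * r ^ n := by
  intro n
  induction n with
  | zero => simp
  | succ n ih =>
    intro h
    have h1 := ih (by omega)
    obtain ⟨d, rfl⟩ : ∃ d, r = n + d := ⟨r - n, by omega⟩
    rw [Nat.descFactorial_succ, Nat.add_sub_cancel_left]
    have h2 := Nat.mul_le_mul_left d h1
    generalize (n + d).descFactorial n = D at *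
    rw [pow_succ (n + d) (n + 1), pow_succ (n + d) n] at *
    generalize (n + d) ^ n = P at *
    nlinarith [Nat.zero_le (n ^ 2 * P * n), Nat.zero_le (n * P * (n + d)), Nat.zero_le (P * (n + d))]

lemma factorial_eq (n : ℕ) :
    n.factorial = ((n + 2) ^ (n + 3)) ^ n / ((n + 2) ^ (n + 3)).choose n := by
  set r := (n + 2) ^ (n + 3) with hr
  have h1 : n.factorial + 1 ≤ (n + 2) ^ (n + 1) := by
    have := Nat.factorial_le_pow n
    have h2 : n ^ n ≤ (n + 2) ^ n := Nat.pow_le_pow_left (by omega) n
    have h3 : 0 < (n + 2) ^ n := by positivity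
    rw [pow_succ]; nlinarith
  have h2 : n ^ 2 * (n.factorial + 1) < r := by
    calc n ^ 2 * (n.factorial + 1) < (n + 2) ^ 2 * (n.factorial + 1) :=
          Nat.mul_lt_mul_of_pos_right (Nat.pow_lt_pow_left (by omega) (by omega)) (by omega)
      _ ≤ (n + 2) ^ 2 * (n + 2) ^ (n + 1) := Nat.mul_le_mul_left _ h1
      _ = r := by rw [hr]; ring
  have hf := n.factorial_pos
  have hn : n ≤ r := by nlinarith [Nat.zero_le (n ^ 2 * n.factorial), Nat.le_self_pow two_ne_zero n]
  have h3 := desc_ge r n hn
  have h4 := Nat.descFactorial_le_pow r n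
  rw [Nat.descFactorial_eq_factorial_mul_choose] at h3 h4
  have hr0 : 0 < r := by positivity
  have hP : 0 < r ^ n := by positivity
  symm
  apply Nat.div_eq_of_lt_le h4
  rw [pow_succ] at h3
  generalize r.choose n = C at *
  generalize r ^ n = P at *
  generalize n.factorial = F at *
  by_contra hc
  push Not at hc
  have h5 := Nat.mul_le_mul_left (F + 1) h3
  have h6 := Nat.mul_le_mul_left (r * F) hc
  have h7 := Nat.mul_lt_mul_of_pos_right h2 hP
  nlinarith

/-! ### closure properties -/

section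
variable {α : Type}

lemma cst (n : ℕ) : DiophFn fun _ : α → ℕ => n := const_dioph n

lemma up {f : (α → ℕ) → ℕ} (df : DiophFn f) : DiophFn fun w : Option α → ℕ => f (w ∘ some) :=
  reindex_diophFn some df

lemma ex {R : (α → ℕ) → ℕ → Prop} (d : Dioph {w : Option α → ℕ | R (w ∘ some) (w none)}) :
    Dioph {v | ∃ x, R v x} := ex1_dioph d

lemma and' {P Q : (α → ℕ) → Prop} (d : Dioph {v | P v}) (d' : Dioph {v | Q v}) :
    Dioph {v | P v ∧ Q v} := inter d d'

lemma or' {P Q : (α → ℕ) → Prop} (d : Dioph {v | P v}) (d' : Dioph {v | Q v}) :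
    Dioph {v | P v ∨ Q v} := union d d'

lemma all_fin {ι : Type} (s : Finset ι) {P : ι → (α → ℕ) → Prop} (d : ∀ i, Dioph {v | P i v}) :
    Dioph {v | ∀ i ∈ s, P i v} := by
  classical
  induction s using Finset.induction_on with
  | empty => exact (eq_dioph (cst 0) (cst 0)).ext fun v => by simp
  | insert a s _ ih => exact (and' (d a) ih).ext fun v => by simp

variable {f g : (α → ℕ) → ℕ}

lemma choose_dioph (df : DiophFn f) (dg : DiophFn g) : DiophFn fun v => (f v).choose (g v) := by
  have h := add_dioph (pow_dioph (cst 2) df) (cst 1)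
  simp only [choose_eq]
  exact mod_dioph (div_dioph (pow_dioph (add_dioph h (cst 1)) df) (pow_dioph h dg)) h

lemma factorial_dioph (df : DiophFn f) : DiophFn fun v => (f v).factorial := by
  have h := pow_dioph (add_dioph df (cst 2)) (add_dioph df (cst 3))
  have e : (fun v => (f v).factorial) = fun v =>
      ((f v + 2) ^ (f v + 3)) ^ f v / ((f v + 2) ^ (f v + 3)).choose (f v) :=
    funext fun v => factorial_eq _
  rw [e]
  exact div_dioph (pow_dioph h df) (choose_dioph h df)

lemma descFactorial_dioph (df : DiophFn f) (dg : DiophFn g) :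
    DiophFn fun v => (f v).descFactorial (g v) := by
  simp only [Nat.descFactorial_eq_factorial_mul_choose]
  exact mul_dioph (factorial_dioph dg) (choose_dioph df dg)

end

/-- Unary functions preserving Diophantine functions. -/
def Good (F : ℕ → ℕ) : Prop :=
  ∀ (α : Type) (f : (α → ℕ) → ℕ), DiophFn f → DiophFn fun v => F (f v)

lemma poly_data {γ : Type} (p : Poly γ) : ∃ (s : Finset γ) (B : ℕ → ℕ), Good B ∧
    (∀ (v v' : γ → ℕ) (m : ℕ), (∀ i ∈ s, v i ≡ v' i [MOD m]) → p v ≡ p v' [ZMOD m]) ∧
    ∀ (v : γ → ℕ) (u : ℕ), (∀ i ∈ s, v i ≤ u) → (p v).natAbs ≤ B u := by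
  classical
  induction p using Poly.induction with
  | H1 i =>
    refine ⟨{i}, fun u => u, fun _ _ h => h, fun v v' m h => ?_, fun v u h => ?_⟩
    · exact Int.natCast_modEq_iff.2 (h i (mem_singleton_self i))
    · simpa using h
  | H2 n =>
    exact ⟨∅, fun _ => n.natAbs, fun _ _ _ => cst _, fun v v' m _ => Int.ModEq.refl _,
      fun v u _ => le_rfl⟩
  | H3 f g hf hg =>
    obtain ⟨s, B, h1, h2, h3⟩ := hf
    obtain ⟨s', B', h1', h2', h3'⟩ := hg
    refine ⟨s ∪ s', fun u => B u + B' u, fun _ _ h => add_dioph (h1 _ _ h) (h1' _ _ h),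
      fun v v' m h => ?_, fun v u h => ?_⟩
    · exact (h2 v v' m fun i hi => h i (mem_union_left _ hi)).sub
        (h2' v v' m fun i hi => h i (mem_union_right _ hi))
    · exact (Int.natAbs_sub_le _ _).trans (add_le_add (h3 v u fun i hi => h i (mem_union_left _ hi))
        (h3' v u fun i hi => h i (mem_union_right _ hi)))
  | H4 f g hf hg =>
    obtain ⟨s, B, h1, h2, h3⟩ := hf
    obtain ⟨s', B', h1', h2', h3'⟩ := hg
    refine ⟨s ∪ s', fun u => B u * B' u, fun _ _ h => mul_dioph (h1 _ _ h) (h1' _ _ h),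
      fun v v' m h => ?_, fun v u h => ?_⟩
    · exact (h2 v v' m fun i hi => h i (mem_union_left _ hi)).mul
        (h2' v v' m fun i hi => h i (mem_union_right _ hi))
    · rw [Poly.mul_apply, Int.natAbs_mul]
      exact Nat.mul_le_mul (h3 v u fun i hi => h i (mem_union_left _ hi))
        (h3' v u fun i hi => h i (mem_union_right _ hi))

/-- The moduli of the bounded quantifier construction. -/
lemma moduli (b N q : ℕ) (hb : b ≤ N) (hN : 3 ≤ N) (hq : q + 1 = b.factorial * N.factorial) :
    ∃ m : ℕ → ℕ, q.choose b = ∏ y ∈ range b, m y ∧ (∀ y < b, q = y + (y + 1) * m y) ∧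
      (∀ y < b, 1 < m y) ∧ (∀ y < b, ∀ r : ℕ, r.Prime → r ∣ m y → N < r) ∧
      ∀ y < b, ∀ y' < b, y ≠ y' → Nat.Coprime (m y) (m y') := by
  have hdiv : ∀ y < b, ∃ c, 0 < c ∧ b.factorial = (y + 1) * c := by
    intro y hy
    obtain ⟨c, hc⟩ := Nat.dvd_factorial (by omega : 0 < y + 1) (by omega : y + 1 ≤ b)
    refine ⟨c, Nat.pos_of_ne_zero ?_, hc⟩
    rintro rfl
    exact b.factorial_ne_zero (by simpa using hc)
  choose! c hc0 hc using hdiv
  have hN6 : 6 ≤ N.factorial := Nat.factorial_le hN
  have hm : ∀ y < b, c y * N.factorial - 1 + 1 = c y * N.factorial ∧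
      1 < c y * N.factorial - 1 := by
    intro y hy
    have := Nat.mul_le_mul (hc0 y hy) hN6
    omega
  have h2 : ∀ y < b, q = y + (y + 1) * (c y * N.factorial - 1) := by
    intro y hy
    have h1 := (hm y hy).1
    rw [hc y hy, mul_assoc, ← h1] at hq
    nlinarith
  have h4 : ∀ y < b, ∀ r : ℕ, r.Prime → r ∣ c y * N.factorial - 1 → N < r := by
    intro y hy r hr hd
    by_contra hlt
    have h1 : r ∣ c y * N.factorial - 1 + 1 := by
      rw [(hm y hy).1]
      exact Dvd.dvd.mul_left (Nat.dvd_factorial hr.pos (by omega)) _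
    exact hr.one_lt.ne' (Nat.dvd_one.1 ((Nat.dvd_add_right hd).1 h1))
  refine ⟨fun y => c y * N.factorial - 1, ?_, h2, fun y hy => (hm y hy).2, h4, ?_⟩
  · apply Nat.eq_of_mul_eq_mul_left b.factorial_pos
    rw [← Nat.descFactorial_eq_factorial_mul_choose, Nat.descFactorial_eq_prod_range,
      ← prod_range_add_one_eq_factorial, ← prod_mul_distrib]
    refine prod_congr rfl fun y hy => ?_
    have := h2 y (mem_range.1 hy)
    omega
  · intro y hy y' hy' hne
    apply Nat.coprime_of_dvd
    intro r hr h1 h1'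
    have h5 := h4 y hy r hr h1
    have e1 : q % r = y := by
      rw [h2 y hy, (Nat.dvd_iff_mod_eq_zero.1 (Dvd.dvd.mul_left h1 (y + 1)) ▸
        Nat.add_mod y _ r :), add_zero, Nat.mod_mod, Nat.mod_eq_of_lt (by omega)]
    have e2 : q % r = y' := by
      rw [h2 y' hy', (Nat.dvd_iff_mod_eq_zero.1 (Dvd.dvd.mul_left h1' (y' + 1)) ▸
        Nat.add_mod y' _ r :), add_zero, Nat.mod_mod, Nat.mod_eq_of_lt (by omega)]
    exact hne (e1.symm.trans e2)

/-- Diophantine sets are closed under bounded universal quantifiers. -/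
theorem ball {α : Type} {R : (α → ℕ) → ℕ → Prop}
    (d : Dioph {w : Option α → ℕ | R (w ∘ some) (w none)}) {f : (α → ℕ) → ℕ} (df : DiophFn f) :
    Dioph {v | ∀ y < f v, R v y} := by
  classical
  obtain ⟨β, p, pe⟩ := d
  obtain ⟨s, B, hB, hcong, hbd⟩ := poly_data p
  let ι : Option α ⊕ β → α ⊕ Option (Option β) :=
    Sum.elim (fun o => o.elim (.inr none) .inl) fun j => .inr (some (some j))
  let U : α ⊕ Option (Option β) := .inr (some none)
  let Q : α ⊕ Option (Option β) := .inr none
  let cond : Option α ⊕ β → (α ⊕ Option (Option β) → ℕ) → Prop := fun i w =>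
    match i with
    | .inl none => True
    | .inl (some a) => w (.inl a) ≤ w U
    | .inr j => (w Q).choose (f (w ∘ .inl)) ∣ (w (.inr (some (some j)))).descFactorial (w U + 1)
  have df' : DiophFn fun w : α ⊕ Option (Option β) → ℕ => f (w ∘ .inl) := reindex_diophFn _ df
  have dc : DiophFn fun w : α ⊕ Option (Option β) → ℕ => (w Q).choose (f (w ∘ .inl)) :=
    choose_dioph (proj_dioph Q) df'
  have D : Dioph {w : α ⊕ Option (Option β) → ℕ | f (w ∘ .inl) ≤ w U ∧
      w Q + 1 = (f (w ∘ .inl)).factorial * (B (w U) + w U + 3).factorial ∧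
      (w Q).choose (f (w ∘ .inl)) ∣ (p.map ι w).natAbs ∧ ∀ i ∈ s, cond i w} := by
    refine and' (le_dioph df' (proj_dioph U)) (and' (eq_dioph (add_dioph (proj_dioph Q) (cst 1))
      (mul_dioph (factorial_dioph df') (factorial_dioph (add_dioph (add_dioph
        (hB _ _ (proj_dioph U)) (proj_dioph U)) (cst 3)))))
      (and' (dvd_dioph dc (abs_poly_dioph _)) (all_fin s fun i => ?_)))
    rcases i with (_ | a) | j
    · exact (eq_dioph (cst 0) (cst 0)).ext fun v => by simp [cond]
    · exact le_dioph (proj_dioph _) (proj_dioph U)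
    · exact dvd_dioph dc (descFactorial_dioph (proj_dioph _) (add_dioph (proj_dioph U) (cst 1)))
  have pe' : ∀ (v : α → ℕ) (y : ℕ), R v y ↔ ∃ t, p (Sum.elim (Option.elim' y v) t) = 0 :=
    fun v y => pe (Option.elim' y v)
  refine (ex_dioph D).ext fun v => ⟨?_, ?_⟩
  · rintro ⟨x, h1, h2, h3, h4⟩ y hy
    change f v ≤ x (some none) at h1
    change x none + 1 = (f v).factorial * (B (x (some none)) + x (some none) + 3).factorial at h2
    change (x none).choose (f v) ∣ (p (Sum.elim v x ∘ ι)).natAbs at h3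
    set u := x (some none) with hu
    obtain ⟨m, hm1, hm2, hm3, hm4, -⟩ := moduli (f v) _ _ (by omega) (by omega) h2
    obtain ⟨r, hr, hrm⟩ := Nat.exists_prime_and_dvd (hm3 y hy).ne'
    have hrN := hm4 y hy r hr hrm
    have hrc : r ∣ (x none).choose (f v) :=
      hrm.trans (hm1 ▸ dvd_prod_of_mem m (mem_range.2 hy))
    have hz : ∀ j, Sum.inr j ∈ s → ∃ t ≤ u, t ≡ x (some (some j)) [MOD r] := by
      intro j hj
      have h5 : r ∣ (x (some (some j))).descFactorial (u + 1) := hrc.trans (h4 _ hj)
      rw [Nat.descFactorial_eq_prod_range] at h5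
      obtain ⟨t, ht, hd⟩ := (Prime.dvd_finsetProd_iff hr.prime _).1 h5
      have ht' := mem_range.1 ht
      by_cases hle : t ≤ x (some (some j))
      · exact ⟨t, by omega, (Nat.modEq_iff_dvd' hle).2 hd⟩
      · exact ⟨_, by omega, Nat.ModEq.refl _⟩
    choose! t ht1 ht2 using hz
    refine (pe' v y).2 ⟨t, ?_⟩
    have h6 : p (Sum.elim (Option.elim' y v) t) ≡ p (Sum.elim v x ∘ ι) [ZMOD r] := by
      refine hcong _ _ r fun i hi => ?_
      rcases i with (_ | a) | j
      · change y ≡ x none [MOD r]
        rw [hm2 y hy]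
        exact (Nat.modEq_iff_dvd' (by omega)).2
          (by rw [Nat.add_sub_cancel_left]; exact Dvd.dvd.mul_left hrm _)
      · exact Nat.ModEq.refl _
      · exact ht2 j hi
    have h7 : (p (Sum.elim (Option.elim' y v) t)).natAbs ≤ B u := by
      refine hbd _ u fun i hi => ?_
      rcases i with (_ | a) | j
      · change y ≤ u
        omega
      · exact h4 _ hi
      · exact ht1 j hi
    have h8 : (r : ℤ) ∣ p (Sum.elim (Option.elim' y v) t) :=
      (Int.modEq_zero_iff_dvd).1 (h6.trans (Int.modEq_zero_iff_dvd.2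
        (Int.natCast_dvd.2 (hrc.trans h3))))
    exact Int.natAbs_eq_zero.1 (Nat.eq_zero_of_dvd_of_lt (Int.natCast_dvd.1 h8) (by omega))
  · intro h
    have h' : ∀ y < f v, ∃ t, p (Sum.elim (Option.elim' y v) t) = 0 :=
      fun y hy => (pe' v y).1 (h y hy)
    choose! t ht using h'
    set u := f v + ∑ y ∈ range (f v + 1), ∑ i ∈ s, Sum.elim (Option.elim' y v) (t y) i with hu
    have hle : ∀ y ≤ f v, ∀ i ∈ s, Sum.elim (Option.elim' y v) (t y) i ≤ u := by
      intro y hy i hi
      have h1 := single_le_sum (f := fun i => Sum.elim (Option.elim' y v) (t y) i)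
        (fun _ _ => Nat.zero_le _) hi
      have h2 := single_le_sum (f := fun y => ∑ i ∈ s, Sum.elim (Option.elim' y v) (t y) i)
        (fun _ _ => Nat.zero_le _) (mem_range.2 (Nat.lt_succ_of_le hy))
      exact (h1.trans h2).trans (Nat.le_add_left _ _)
    have hfu : f v ≤ u := by omega
    obtain ⟨q, hq⟩ : ∃ q, q + 1 = (f v).factorial * (B u + u + 3).factorial :=
      ⟨_, Nat.sub_add_cancel (Nat.mul_pos (Nat.factorial_pos _) (Nat.factorial_pos _))⟩
    obtain ⟨m, hm1, hm2, hm3, -, hm5⟩ := moduli (f v) _ _ (by omega) (by omega) hq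
    have hpw : Set.Pairwise (↑(range (f v)) : Set ℕ) (Function.onFun Nat.Coprime m) :=
      fun y hy y' hy' hne => hm5 y (mem_range.1 hy) y' (mem_range.1 hy') hne
    have hz : ∀ j, ∃ z, ∀ y ∈ range (f v), z ≡ t y j [MOD m y] := fun j =>
      ⟨_, (Nat.chineseRemainderOfFinset (fun y => t y j) m (range (f v))
        (fun y hy => by have := hm3 y (mem_range.1 hy); omega) hpw).2⟩
    choose z hz using hz
    have hall : ∀ k : ℕ, (∀ y < f v, m y ∣ k) → q.choose (f v) ∣ k := by
      intro k hk
      rw [hm1]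
      exact Finset.prod_dvd_of_isRelPrime
        (fun y hy y' hy' hne => Nat.coprime_iff_isRelPrime.1 (hpw hy hy' hne))
        fun y hy => hk y (mem_range.1 hy)
    refine ⟨Option.elim' q (Option.elim' u z), hfu, hq, hall _ fun y hy => ?_, fun i hi => ?_⟩
    · have h6 : p (Sum.elim v (Option.elim' q (Option.elim' u z)) ∘ ι)
          ≡ p (Sum.elim (Option.elim' y v) (t y)) [ZMOD m y] := by
        refine hcong _ _ _ fun i hi => ?_
        rcases i with (_ | a) | j
        · change q ≡ y [MOD m y]
          rw [hm2 y hy]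
          exact ((Nat.modEq_iff_dvd' (by omega)).2
            (by rw [Nat.add_sub_cancel_left]; exact Dvd.intro_left _ rfl)).symm
        · exact Nat.ModEq.refl _
        · exact hz j y (mem_range.2 hy)
      rw [ht y hy] at h6
      exact Int.natCast_dvd.1 (Int.modEq_zero_iff_dvd.1 h6)
    · rcases i with (_ | a) | j
      · trivial
      · exact hle 0 (Nat.zero_le _) _ hi
      · refine hall _ fun y hy => ?_
        change m y ∣ (z j).descFactorial (u + 1)
        have h1 : t y j ≤ u := hle y hy.le _ hi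
        by_cases h2 : t y j ≤ z j
        · rw [Nat.descFactorial_eq_prod_range]
          exact ((Nat.modEq_iff_dvd' h2).1 (hz j y (mem_range.2 hy)).symm).trans
            (dvd_prod_of_mem (fun i => z j - i) (mem_range.2 (by omega)))
        · rw [Nat.descFactorial_of_lt (by omega)]
          exact dvd_zero _

/-! ### primitive recursive functions -/

section
variable {α : Type} {f g : (α → ℕ) → ℕ}

lemma pair_dioph (df : DiophFn f) (dg : DiophFn g) : DiophFn fun v => Nat.pair (f v) (g v) := by
  have a := up df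
  have b := up dg
  have c : DiophFn fun w : Option α → ℕ => w none := proj_dioph none
  refine (or' (and' (lt_dioph a b) (eq_dioph (add_dioph (mul_dioph b b) a) c))
    (and' (le_dioph b a) (eq_dioph (add_dioph (add_dioph (mul_dioph a a) a) b) c))).ext
    fun w => ?_
  simp only [Set.mem_ofPred_eq, Nat.pair]
  split_ifs with h
  · simp [h, not_le.2 h]
  · simp [h, not_lt.1 h]

lemma left_dioph (df : DiophFn f) : DiophFn fun v => (f v).unpair.1 := by
  refine (ex (R := fun w y => Nat.pair (w none) y = f (w ∘ some))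
    (eq_dioph (pair_dioph (proj_dioph (some none)) (proj_dioph none)) (up (up df)))).ext
    fun w => ⟨?_, fun h => ⟨(f (w ∘ some)).unpair.2, ?_⟩⟩
  · rintro ⟨y, hy⟩
    change (f (w ∘ some)).unpair.1 = w none
    rw [← hy, Nat.unpair_pair]
  · change (f (w ∘ some)).unpair.1 = w none at h
    rw [← h, Nat.pair_unpair]

lemma right_dioph (df : DiophFn f) : DiophFn fun v => (f v).unpair.2 := by
  refine (ex (R := fun w y => Nat.pair y (w none) = f (w ∘ some))
    (eq_dioph (pair_dioph (proj_dioph none) (proj_dioph (some none))) (up (up df)))).ext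
    fun w => ⟨?_, fun h => ⟨(f (w ∘ some)).unpair.1, ?_⟩⟩
  · rintro ⟨y, hy⟩
    change (f (w ∘ some)).unpair.2 = w none
    rw [← hy, Nat.unpair_pair]
  · change (f (w ∘ some)).unpair.2 = w none at h
    rw [← h, Nat.pair_unpair]

lemma beta_dioph (df : DiophFn f) (dg : DiophFn g) : DiophFn fun v => Nat.beta (f v) (g v) :=
  mod_dioph (left_dioph df)
    (add_dioph (mul_dioph (add_dioph dg (cst 1)) (right_dioph df)) (cst 1))

end

theorem good_of_primrec {F : ℕ → ℕ} (h : Nat.Primrec F) : Good F := by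
  induction h with
  | zero => exact fun _ _ _ => cst 0
  | succ => exact fun _ _ df => add_dioph df (cst 1)
  | left => exact fun _ _ df => left_dioph df
  | right => exact fun _ _ df => right_dioph df
  | pair _ _ h1 h2 => exact fun _ _ df => pair_dioph (h1 _ _ df) (h2 _ _ df)
  | comp _ _ h1 h2 => exact fun _ _ df => h1 _ _ (h2 _ _ df)
  | @prec F G _ _ h1 h2 =>
    intro α f df
    have z2 := left_dioph (up (up df))
    have n2 := right_dioph (up (up df))
    have c2 : DiophFn fun w : Option (Option α) → ℕ => w none := proj_dioph none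
    have y3 : DiophFn fun w : Option (Option (Option α)) → ℕ => w none := proj_dioph none
    have D := ex (R := fun (w : Option α → ℕ) c =>
        Nat.beta c 0 = F (f (w ∘ some)).unpair.1 ∧ Nat.beta c (f (w ∘ some)).unpair.2 = w none ∧
        ∀ y < (f (w ∘ some)).unpair.2, Nat.beta c (y + 1) =
          G (Nat.pair (f (w ∘ some)).unpair.1 (Nat.pair y (Nat.beta c y))))
      (and' (eq_dioph (beta_dioph c2 (cst 0)) (h1 _ _ z2))
        (and' (eq_dioph (beta_dioph c2 n2) (proj_dioph (some none)))
          (ball (R := fun (w : Option (Option α) → ℕ) y => Nat.beta (w none) (y + 1) =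
            G (Nat.pair (f ((w ∘ some) ∘ some)).unpair.1 (Nat.pair y (Nat.beta (w none) y))))
            (eq_dioph (beta_dioph (up c2) (add_dioph y3 (cst 1)))
              (h2 _ _ (pair_dioph (up z2) (pair_dioph y3 (beta_dioph (up c2) y3))))) n2)))
    refine D.ext fun w => ?_
    simp only [Set.mem_ofPred_eq, Nat.unpaired]
    generalize (f (w ∘ some)).unpair.1 = z
    generalize (f (w ∘ some)).unpair.2 = n
    set S : ℕ → ℕ := fun k => Nat.rec (F z) (fun y IH => G (Nat.pair z (Nat.pair y IH))) k with hS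
    constructor
    · rintro ⟨c, e0, en, es⟩
      have : ∀ k ≤ n, Nat.beta c k = S k := by
        intro k
        induction k with
        | zero => exact fun _ => e0
        | succ k ih => intro hk; rw [es k hk, ih (by omega)]
      rw [← en, this n le_rfl]
    · intro hn
      have key : ∀ k ≤ n, Nat.beta (Nat.unbeta (List.ofFn fun i : Fin (n + 1) => S i)) k = S k := by
        intro k hk
        have := Nat.beta_unbeta_coe (List.ofFn fun i : Fin (n + 1) => S i) ⟨k, by simp; omega⟩
        rw [this, Fin.getElem_fin, List.getElem_ofFn]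
      refine ⟨_, key 0 (Nat.zero_le _), (key n le_rfl).trans hn, fun y hy => ?_⟩
      rw [key (y + 1) hy, key y hy.le]

/-- Every primitive recursive function preserves Diophantine functions. -/
theorem primrec_dioph {F : ℕ → ℕ} (h : Primrec F) {α : Type} {f : (α → ℕ) → ℕ} (df : DiophFn f) :
    DiophFn fun v => F (f v) :=
  good_of_primrec (Primrec.nat_iff.1 h) α f df

/-- The MRDP theorem, composed with a Diophantine function. -/
theorem mrdp_comp (p : ℕ → Prop) (hp : REPred p) {α : Type} {f : (α → ℕ) → ℕ} (df : DiophFn f) :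
    Dioph {v | p (f v)} := by
  obtain ⟨c, hc⟩ := Nat.Partrec.Code.exists_code.1 hp
  have hF : Primrec fun n : ℕ =>
      Encodable.encode (Nat.Partrec.Code.evaln n.unpair.1 c n.unpair.2) :=
    Primrec.encode.comp (Nat.Partrec.Code.primrec_evaln.comp
      (((Primrec.fst.comp Primrec.unpair).pair (Primrec.const c)).pair
        (Primrec.snd.comp Primrec.unpair)))
  refine (ex (R := fun v k => 0 < Encodable.encode
      (Nat.Partrec.Code.evaln (Nat.pair k (f v)).unpair.1 c (Nat.pair k (f v)).unpair.2))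
    (lt_dioph (cst 0) (primrec_dioph hF (pair_dioph (proj_dioph none) (up df))))).ext fun v => ?_
  simp only [Set.mem_ofPred_eq, Nat.unpair_pair]
  have h1 : p (f v) ↔ ∃ x, x ∈ c.eval (f v) := by
    rw [hc]
    simp [Part.mem_assert_iff]
  rw [h1]
  simp only [Nat.Partrec.Code.evaln_complete]
  constructor
  · rintro ⟨k, hk⟩
    cases h : Nat.Partrec.Code.evaln k c (f v) with
    | none => rw [h] at hk; simp at hk
    | some x => exact ⟨x, k, h⟩
  · rintro ⟨x, k, hk⟩
    refine ⟨k, ?_⟩
    rw [Option.mem_def.1 hk]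
    simp

/-- The MRDP theorem. -/
theorem mrdp (p : ℕ → Prop) (hp : REPred p) : Dioph {v : Unit → ℕ | p (v ())} :=
  mrdp_comp p hp (proj_dioph ())

end Pool.Agent.Shared.H68
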